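import Pool.Agent.K1H76.DK.Stm

namespace Pool.Agent.K1H76.DK
open Finset Filter Topology

theorem t_ASM : S_ASM := by
  intro c h
  have hlog2 : 0 < Real.log 2 := Real.log_pos one_lt_two
  rw [Metric.tendsto_atTop]
  intro η hη
  set ε : ℝ := min (1 / 2) (η * Real.log 2 / 2) with hε
  have hε0 : 0 < ε := by
    apply lt_min (by norm_num)
    positivity
  have hε1 : ε < 1 := lt_of_le_of_lt (min_le_left _ _) (by norm_num)
  have hεη : ε ≤ η * Real.log 2 / 2 := min_le_right _ _
  obtain ⟨k₀, hk₀⟩ := h ε hε0 hε1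
  refine ⟨max k₀ 16, fun k hk => ?_⟩
  obtain ⟨h1, h2⟩ := hk₀ k (le_trans (le_max_left _ _) hk)
  have hk16 : (16 : ℝ) ≤ k := by exact_mod_cast le_trans (le_max_right _ _) hk
  have hL : 1 < Real.log k := by
    have : Real.log 16 ≤ Real.log k := Real.log_le_log (by norm_num) hk16
    have h4 : Real.log 16 = 4 * Real.log 2 := by
      rw [show (16 : ℝ) = 2 ^ 4 by norm_num, Real.log_pow]; norm_num
    have := Real.log_two_gt_d9
    linarith
  have hLL : 0 < Real.log (Real.log k) := Real.log_pos hL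
  set P := Real.log k * Real.log (Real.log k) with hP
  have hP0 : 0 < P := mul_pos (by linarith) hLL
  have hLam : Lam k = P / Real.log 2 := rfl
  have hpos : 0 < 1 - c k := lt_of_lt_of_le (Real.exp_pos _) h1
  have h3 : -(1 + ε) * Lam k ≤ Real.log (1 - c k) := (Real.le_log_iff_exp_le hpos).2 h1
  have h4 : Real.log (1 - c k) ≤ -(1 - ε) * Lam k := (Real.log_le_iff_le_exp hpos).2 h2
  rw [Real.dist_eq, abs_lt]
  rw [hLam] at h3 h4
  have e1 : -(1 + ε) * (P / Real.log 2) = -((1 + ε) / Real.log 2) * P := by ring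
  have e2 : -(1 - ε) * (P / Real.log 2) = -((1 - ε) / Real.log 2) * P := by ring
  rw [e1] at h3
  rw [e2] at h4
  have h5 : -Real.log (1 - c k) / P ≤ (1 + ε) / Real.log 2 := by
    rw [div_le_iff₀ hP0]; linarith
  have h6 : (1 - ε) / Real.log 2 ≤ -Real.log (1 - c k) / P := by
    rw [le_div_iff₀ hP0]; linarith
  have h7 : ε / Real.log 2 ≤ η / 2 := by
    rw [div_le_iff₀ hlog2]; linarith
  have h8 : (1 + ε) / Real.log 2 = 1 / Real.log 2 + ε / Real.log 2 := by ring
  have h9 : (1 - ε) / Real.log 2 = 1 / Real.log 2 - ε / Real.log 2 := by ring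
  constructor <;> linarith

end Pool.Agent.K1H76.DK
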