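import Mathlib

/-! Project DK (MP_573265_nt): `F_k(n) ~ c_k n` and `-log (1 - c_k) ~ log k log log k / log 2`.
Definitions and the named pieces. -/

namespace Pool.Agent.K1H76.DK
open Finset Filter Topology

/-- every element of `A` is a multiple of fewer than `k` other elements of `A` -/
def Admissible (k : ℕ) (A : Finset ℕ) : Prop :=
  ∀ a ∈ A, (A.filter (fun b => b ≠ a ∧ b ∣ a)).card < k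

open Classical in
/-- the largest cardinality of an admissible subset of `[1, n]` -/
noncomputable def F (k n : ℕ) : ℕ :=
  ((Icc 1 n).powerset.filter (fun A => Admissible k A)).sup Finset.card

/-- `Λ(k) = log k log log k / log 2` -/
noncomputable def Lam (k : ℕ) : ℝ := Real.log k * Real.log (Real.log k) / Real.log 2

/-- `∑ 1 / lcm(j_1, ..., j_m)` over `1 ≤ j_i ≤ Y` -/
noncomputable def M (m Y : ℕ) : ℝ :=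
  ∑ j ∈ Fintype.piFinset (fun _ : Fin m => Icc 1 Y), (1 : ℝ) / ((univ.lcm j : ℕ) : ℝ)

/-- UP -/
def S_UP : Prop := ∀ (k t : ℕ) (c : ℝ), 1 ≤ t → k < t.divisors.card →
  Tendsto (fun n : ℕ => (F k n : ℝ) / n) atTop (𝓝 c) → (t.totient : ℝ) / (t : ℝ) ^ 2 ≤ 1 - c

/-- PR -/
def S_PR : Prop := ∀ ε : ℝ, 0 < ε → ∃ k₀ : ℕ, ∀ k : ℕ, k₀ ≤ k → ∃ t : ℕ, 1 ≤ t ∧ k < t.divisors.card ∧
  Real.exp (-(1 + ε) * Lam k) ≤ (t.totient : ℝ) / (t : ℝ) ^ 2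

/-- LOW -/
def S_LOW : Prop := ∀ (k m Y : ℕ) (c : ℝ), 1 ≤ k → 1 ≤ Y →
  Tendsto (fun n : ℕ => (F k n : ℝ) / n) atTop (𝓝 c) → 1 - c ≤ 1 / Y + M m Y / (k : ℝ) ^ m

/-- LCM -/
def S_LCM : Prop := ∀ m Y : ℕ,
  M m Y ≤ ∏ p ∈ (Icc 1 Y).filter Nat.Prime, ∑' e : ℕ, ((e : ℝ) + 1) ^ m / (p : ℝ) ^ e

/-- FAC -/
def S_FAC : Prop := (∀ m p : ℕ, 1 ≤ m → 2 ≤ p →
    Summable (fun e : ℕ => ((e : ℝ) + 1) ^ m / (p : ℝ) ^ e) ∧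
    ∑' e : ℕ, ((e : ℝ) + 1) ^ m / (p : ℝ) ^ e ≤ (16 * (m : ℝ)) ^ m) ∧
  (∀ m p : ℕ, 3 ≤ m → 2 ^ m ≤ p → ∑' e : ℕ, ((e : ℝ) + 1) ^ m / (p : ℝ) ^ e ≤ Real.exp (2 ^ (m + 1) / p))

/-- MER : Mertens (upper bound) -/
def S_MER : Prop := ∃ C : ℝ, 0 ≤ C ∧ ∀ Y : ℕ, 3 ≤ Y →
  ∑ p ∈ (Icc 1 Y).filter Nat.Prime, (1 : ℝ) / p ≤ Real.log (Real.log Y) + C

/-- PROD -/
def S_PROD : Prop := ∃ C : ℝ, 0 ≤ C ∧ ∀ m Y : ℕ, 3 ≤ m → 3 ≤ Y →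
  M m Y ≤ (16 * (m : ℝ)) ^ (m * 2 ^ m) * Real.exp (2 ^ (m + 1) * (Real.log (Real.log Y) + C))

/-- NUM -/
def S_NUM : Prop := ∀ C : ℝ, 0 ≤ C → ∀ ε : ℝ, 0 < ε → ε < 1 → ∃ k₀ : ℕ, ∀ k : ℕ, k₀ ≤ k →
  ∃ m Y : ℕ, 3 ≤ m ∧ 3 ≤ Y ∧
    (1 : ℝ) / Y + (16 * (m : ℝ)) ^ (m * 2 ^ m) * Real.exp (2 ^ (m + 1) * (Real.log (Real.log Y) + C)) / (k : ℝ) ^ m ≤
      Real.exp (-(1 - ε) * Lam k)

/-- ASM : the final limit from the two-sided bounds. -/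
def S_ASM : Prop := ∀ c : ℕ → ℝ,
  (∀ ε : ℝ, 0 < ε → ε < 1 → ∃ k₀ : ℕ, ∀ k : ℕ, k₀ ≤ k →
    Real.exp (-(1 + ε) * Lam k) ≤ 1 - c k ∧ 1 - c k ≤ Real.exp (-(1 - ε) * Lam k)) →
  Tendsto (fun k : ℕ => -Real.log (1 - c k) / (Real.log k * Real.log (Real.log k))) atTop (𝓝 (1 / Real.log 2))

end Pool.Agent.K1H76.DK
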